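import Pool.Agent.W172.MK.Stm

/-!
# Project MK, part SAME: the kernel vanishes for equal colours
-/

set_option autoImplicit false

open Filter Topology

namespace Pool.Agent.W403.MKSame

open Pool.Agent.W172.MK

/-- a nonnegative nonincreasing sequence which often drops by a factor tends to zero -/
theorem tendsto_zero {w : ℕ → ℝ} (h0 : ∀ t, 0 ≤ w t) (h1 : ∀ t, w (t + 1) ≤ w t)
    (h2 : ∃ᶠ t in atTop, w (t + 1) ≤ 3 / 20 * w t) : Tendsto w atTop (𝓝 0) := by
  have hanti : Antitone w := antitone_nat_of_succ_le h1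
  have hbd : BddBelow (Set.range w) := ⟨0, by rintro _ ⟨t, rfl⟩; exact h0 t⟩
  have hlim := tendsto_atTop_ciInf hanti hbd
  set l := ⨅ i, w i with hl
  have hl0 : 0 ≤ l := le_ciInf h0
  have hle : ∀ t, l ≤ w t := fun t => ciInf_le hbd t
  have hl1 : l ≤ 3 / 20 * l := by
    by_contra hc
    push Not at hc
    have h3 : Tendsto (fun t => 3 / 20 * w t) atTop (𝓝 (3 / 20 * l)) := hlim.const_mul _
    have h4 : ∀ᶠ t in atTop, 3 / 20 * w t < l := h3.eventually (gt_mem_nhds hc)
    obtain ⟨t, h5, h6⟩ := (h2.and_eventually h4).exists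
    have := hle (t + 1)
    linarith
  have : l = 0 := by linarith
  rw [this] at hlim
  exact hlim

theorem hat_sub {n : ℕ} (D D' : V n → ℝ) (a : V n) :
    hat (fun b => D b - D' b) a = hat D a - hat D' a := by
  unfold hat
  rw [← sub_div, ← Finset.sum_sub_distrib]
  congr 1
  refine Finset.sum_congr rfl fun b _ => ?_
  ring

theorem abs_hat_le {n : ℕ} (D : V n → ℝ) (a : V n) : |hat D a| ≤ L1 D :=
  Finset.single_le_sum (f := fun a => |hat D a|) (fun _ _ => abs_nonneg _) (Finset.mem_univ a)

theorem same : P_EE → P_FT → P_HLAM → P_LVD → P_LVA → P_L0 → P_BND → P_SAME := by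
  intro _ _ hHLAM hLVD hLVA hL0 hBND n M eps hG x z hxz hfr
  have hn : 12 ≤ n := hG.big
  have hn1 : 1 ≤ n := le_trans (by norm_num) hn
  have hsum : Summable (fun t => term eps x z t) := (hBND n M eps hG x z).1.of_abs
  have ha : x.1.2 + z.1.2 = 0 := by
    rw [hxz]
    funext i
    exact CharTwo.add_self_eq_zero _
  have hterm : ∀ t, term eps x z t = hat (DD eps x.2 z.2 (t + 1)) 0 - hat (DD eps x.2 z.2 t) 0 := by
    intro t
    unfold term
    rw [if_pos (by rw [hxz]), ha]
    unfold cE
    have e1 : (fun b => DD eps x.2 z.2 t b * (1 - eps (x.2 t) b * eps (z.2 t) b)) =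
        fun b => DD eps x.2 z.2 t b - DD eps x.2 z.2 t b * (eps (x.2 t) b * eps (z.2 t) b) := by
      funext b
      ring
    rw [e1, hat_sub]
    have e2 : hat (DD eps x.2 z.2 (t + 1)) 0 =
        hat (fun b => DD eps x.2 z.2 t b * (eps (x.2 t) b * eps (z.2 t) b)) 0 := by
      have h := hHLAM n hn1 (DD eps x.2 z.2 t) (fun b => eps (x.2 t) b * eps (z.2 t) b) 0
      rw [if_pos rfl] at h
      exact h
    rw [e2]
    ring
  have hpart : ∀ T, ∑ t ∈ Finset.range T, term eps x z t = hat (DD eps x.2 z.2 T) 0 - 1 := by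
    intro T
    rw [Finset.sum_congr rfl (fun t _ => hterm t), Finset.sum_range_sub
      (fun t => hat (DD eps x.2 z.2 t) 0)]
    congr 1
    exact (hL0 n hn).2.1
  have hL : Tendsto (fun t => L1 (DD eps x.2 z.2 t)) atTop (𝓝 0) := by
    have hdis : ∀ t, x.2 t ≠ z.2 t →
        L1 (DD eps x.2 z.2 (t + 1)) ≤ 3 / 20 * L1 (DD eps x.2 z.2 t) := by
      intro t ht
      refine (hLVD n hn (DD eps x.2 z.2 t) (fun b => eps (x.2 t) b * eps (z.2 t) b) ?_ ?_).2.1
      · intro b
        rcases hG.sq (x.2 t) b with h1 | h1 <;> rcases hG.sq (z.2 t) b with h2 | h2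
        · left; rw [h1, h2]; norm_num
        · right; rw [h1, h2]; norm_num
        · right; rw [h1, h2]; norm_num
        · left; rw [h1, h2]; norm_num
      · intro a
        exact hG.cor _ _ ht a
    have hnn : ∀ t, 0 ≤ L1 (DD eps x.2 z.2 t) := fun t =>
      Finset.sum_nonneg fun _ _ => abs_nonneg _
    apply tendsto_zero hnn
    · intro t
      by_cases ht : x.2 t = z.2 t
      · have e : (fun b => eps (x.2 t) b * eps (z.2 t) b) = fun _ => 1 := by
          funext b
          rw [ht]
          rcases hG.sq (z.2 t) b with h1 | h1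
          · rw [h1]; norm_num
          · rw [h1]; norm_num
        have h := (hLVA n hn (DD eps x.2 z.2 t)).1
        rw [← e] at h
        exact h
      · have h1 := hdis t ht
        have h2 := hnn t
        linarith
    · exact hfr.mono hdis
  have hat0 : Tendsto (fun T => hat (DD eps x.2 z.2 T) 0) atTop (𝓝 0) :=
    squeeze_zero_norm (fun T => by rw [Real.norm_eq_abs]; exact abs_hat_le _ _) hL
  have hlim1 : Tendsto (fun T => ∑ t ∈ Finset.range T, term eps x z t) atTop (𝓝 (0 - 1)) := by
    have e : (fun T => ∑ t ∈ Finset.range T, term eps x z t) =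
        fun T => hat (DD eps x.2 z.2 T) 0 - 1 := funext hpart
    rw [e]
    exact hat0.sub_const 1
  have hlim2 := hsum.hasSum.tendsto_sum_nat
  have := tendsto_nhds_unique hlim2 hlim1
  rw [this]
  norm_num

end Pool.Agent.W403.MKSame
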